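import Mathlib

/-!
# A Hammersley-Chapman-Robbins bound for discrete Gaussian type measures

If `w` is an even summable weight on an abelian group and `w (g - h) = E h g * w g`, then translating
by a random element `h i` on which the additive observable `X` takes the value `k` gives a lower bound
for the second moment of `X` in terms of the averaged overlaps `K (h i) (h j)`.
-/

set_option autoImplicit false

namespace Pool.Agent.K3h95.DG

open Finset

lemma hasSum_of_eq {ι : Type*} {f g : ι → ℝ} {a : ℝ} (h : HasSum f a) (hfg : ∀ i, f i = g i) :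
    HasSum g a := by
  have : f = g := funext hfg
  rwa [this] at h

theorem hcr {G : Type*} [AddCommGroup G] (w : G → ℝ) (hw : ∀ g, 0 ≤ w g) (hws : Summable w)
    (hev : ∀ g, w (-g) = w g) (X : G →+ ℝ) (hX : Summable fun g => X g ^ 2 * w g)
    (E K : G → G → ℝ) (hE : ∀ g h, E h g * w g = w (g - h))
    (hK : ∀ g h h', E h g * E h' g * w g = K h h' * w (g - (h + h')))
    {ι : Type*} (s : Finset ι) (h : ι → G) (k : ℝ) (hk : ∀ i ∈ s, X (h i) = k)
    (hs : 0 < (s.card : ℝ)) (R : ℝ) (hR0 : 0 < R)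
    (hR : ∑ i ∈ s, ∑ j ∈ s, K (h i) (h j) ≤ R * (s.card : ℝ) ^ 2) :
    k ^ 2 * (∑' g, w g) ≤ R * ∑' g, X g ^ 2 * w g := by
  set n : ℝ := (s.card : ℝ) with hn
  set Z := ∑' g, w g with hZ
  set V := ∑' g, X g ^ 2 * w g with hV
  have hZ0 : 0 ≤ Z := tsum_nonneg hw
  -- `X w` is summable with sum zero
  have hXw : Summable fun g => X g * w g := by
    refine Summable.of_norm_bounded (g := fun g => X g ^ 2 * w g + w g) (hX.add hws) (fun g => ?_)
    rw [Real.norm_eq_abs, abs_mul, abs_of_nonneg (hw g)]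
    have h1 : |X g| ≤ X g ^ 2 + 1 := by
      rw [← sq_abs]
      nlinarith [sq_nonneg (|X g| - 1), abs_nonneg (X g)]
    nlinarith [hw g]
  have hX0 : HasSum (fun g => X g * w g) 0 := by
    have h1 := hXw.hasSum
    have h2 : HasSum (fun g => X (-g) * w (-g)) (∑' g, X g * w g) :=
      (Equiv.hasSum_iff (Equiv.neg G) (f := fun g => X g * w g)).2 h1
    have h3 : (fun g => X (-g) * w (-g)) = fun g => -(X g * w g) := by
      funext g
      rw [hev, map_neg]
      ring
    rw [h3] at h2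
    have h4 := h2.unique h1.neg
    have h5 : ∑' g, X g * w g = 0 := by linarith
    rwa [h5] at h1
  -- shifted sums
  have hshift : ∀ a : G, HasSum (fun g => w (g - a)) Z := fun a =>
    (Equiv.hasSum_iff (Equiv.subRight a) (f := w)).2 hws.hasSum
  have hXshift : ∀ a : G, HasSum (fun g => X g * w (g - a)) (X a * Z) := by
    intro a
    have h1 : HasSum (fun g => X (g - a) * w (g - a)) 0 :=
      (Equiv.hasSum_iff (Equiv.subRight a) (f := fun g => X g * w g)).2 hX0
    have h2 := h1.add ((hshift a).mul_left (X a))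
    rw [zero_add] at h2
    refine hasSum_of_eq h2 (fun g => ?_)
    rw [map_sub]
    ring
  -- the linear term
  have hlin : HasSum (fun g => X g * ((∑ i ∈ s, E (h i) g) * w g)) (n * (k * Z)) := by
    have h1 : HasSum (fun g => ∑ i ∈ s, X g * w (g - h i)) (∑ i ∈ s, X (h i) * Z) :=
      hasSum_sum fun i _ => hXshift (h i)
    have h2 : ∑ i ∈ s, X (h i) * Z = n * (k * Z) := by
      rw [Finset.sum_congr rfl (fun i hi => by rw [hk i hi]), Finset.sum_const, nsmul_eq_mul]
    rw [h2] at h1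
    refine hasSum_of_eq h1 (fun g => ?_)
    rw [Finset.sum_mul, Finset.mul_sum]
    exact Finset.sum_congr rfl fun i _ => by rw [hE]
  -- the quadratic term
  have hquad : HasSum (fun g => (∑ i ∈ s, E (h i) g) ^ 2 * w g)
      ((∑ i ∈ s, ∑ j ∈ s, K (h i) (h j)) * Z) := by
    have h1 : HasSum (fun g => ∑ i ∈ s, ∑ j ∈ s, K (h i) (h j) * w (g - (h i + h j)))
        (∑ i ∈ s, ∑ j ∈ s, K (h i) (h j) * Z) :=
      hasSum_sum fun i _ => hasSum_sum fun j _ => (hshift _).mul_left _
    have h2 : ∑ i ∈ s, ∑ j ∈ s, K (h i) (h j) * Z = (∑ i ∈ s, ∑ j ∈ s, K (h i) (h j)) * Z := by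
      rw [Finset.sum_mul]
      exact Finset.sum_congr rfl fun i _ => by rw [Finset.sum_mul]
    rw [h2] at h1
    refine hasSum_of_eq h1 (fun g => ?_)
    rw [sq, Finset.sum_mul_sum, Finset.sum_mul]
    refine Finset.sum_congr rfl fun i _ => ?_
    rw [Finset.sum_mul]
    exact Finset.sum_congr rfl fun j _ => by rw [hK]
  -- expand the square with `c = k / (R n)`
  have hsq : ∀ c : ℝ, 0 ≤ V - 2 * c * (n * (k * Z)) + c ^ 2 * ((∑ i ∈ s, ∑ j ∈ s, K (h i) (h j)) * Z) := by
    intro c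
    have h1 := ((hX.hasSum.sub (hlin.mul_left (2 * c))).add (hquad.mul_left (c ^ 2)))
    refine h1.nonneg (fun g => ?_)
    have h2 : X g ^ 2 * w g - 2 * c * (X g * ((∑ i ∈ s, E (h i) g) * w g)) +
        c ^ 2 * ((∑ i ∈ s, E (h i) g) ^ 2 * w g) = (X g - c * (∑ i ∈ s, E (h i) g)) ^ 2 * w g := by
      ring
    rw [h2]
    exact mul_nonneg (sq_nonneg _) (hw g)
  have h3 := hsq (k / (R * n))
  have h4 : (k / (R * n)) ^ 2 * ((∑ i ∈ s, ∑ j ∈ s, K (h i) (h j)) * Z) ≤
      (k / (R * n)) ^ 2 * ((R * n ^ 2) * Z) :=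
    mul_le_mul_of_nonneg_left (mul_le_mul_of_nonneg_right hR hZ0) (sq_nonneg _)
  have h5 : (k / (R * n)) ^ 2 * ((R * n ^ 2) * Z) = k ^ 2 * Z / R := by
    field_simp
  have h6 : 2 * (k / (R * n)) * (n * (k * Z)) = 2 * (k ^ 2 * Z / R) := by
    field_simp
  have h7 : k ^ 2 * Z / R ≤ V := by linarith
  rw [div_le_iff₀ hR0] at h7
  linarith

end Pool.Agent.K3h95.DG
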