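import Mathlib

/-! # Elementary sums -/

set_option autoImplicit false

namespace Pool.Agent.K3h95.DG

open Finset

/-- Products of nonnegative summable functions are summable on the finite product. -/
lemma summable_pi_prod {ι : Type*} [Fintype ι] {κ : Type*} (f : ι → κ → ℝ)
    (h0 : ∀ i m, 0 ≤ f i m) (hf : ∀ i, Summable (f i)) :
    Summable fun v : ι → κ => ∏ i, f i (v i) := by
  classical
  refine summable_of_sum_le (c := ∏ i, ∑' m, f i m) (fun v => Finset.prod_nonneg fun i _ => h0 i _)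
    (fun u => ?_)
  have h1 : u ⊆ Fintype.piFinset (fun i => u.image (fun v => v i)) := by
    intro v hv
    rw [Fintype.mem_piFinset]
    exact fun i => Finset.mem_image_of_mem _ hv
  calc ∑ v ∈ u, ∏ i, f i (v i)
      ≤ ∑ v ∈ Fintype.piFinset (fun i => u.image (fun v => v i)), ∏ i, f i (v i) :=
        Finset.sum_le_sum_of_subset_of_nonneg h1 fun v _ _ => Finset.prod_nonneg fun i _ => h0 i _
    _ = ∏ i, ∑ m ∈ u.image (fun v => v i), f i m := by rw [Finset.prod_univ_sum]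
    _ ≤ ∏ i, ∑' m, f i m :=
        Finset.prod_le_prod (fun i _ => Finset.sum_nonneg fun m _ => h0 i m)
          fun i _ => (hf i).sum_le_tsum _ fun m _ => h0 i m

/-- Telescoping comparison for `m ^ (-(q + 1))`. -/
lemma rpow_telescope {q : ℝ} (hq : 0 < q) {m : ℝ} (hm : 1 ≤ m) :
    m ^ (-(q + 1)) ≤ (q + 2) / q * (m ^ (-q) - (m + 1) ^ (-q)) := by
  have hm0 : 0 < m := by linarith
  -- `(m / (m + 1)) ^ q ≤ exp (- q / (m + 1)) ≤ (m + 1) / (m + 1 + q)`
  have h1 : (m / (m + 1)) ^ q ≤ Real.exp (-(q / (m + 1))) := by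
    have h2 : m / (m + 1) ≤ Real.exp (-(1 / (m + 1))) := by
      have := Real.add_one_le_exp (-(1 / (m + 1)))
      have h3 : m / (m + 1) = -(1 / (m + 1)) + 1 := by field_simp; ring
      linarith
    calc (m / (m + 1)) ^ q ≤ (Real.exp (-(1 / (m + 1)))) ^ q :=
          Real.rpow_le_rpow (by positivity) h2 hq.le
      _ = Real.exp (-(q / (m + 1))) := by
          rw [← Real.exp_mul]
          congr 1
          ring
  have h2 : Real.exp (-(q / (m + 1))) ≤ (m + 1) / (m + 1 + q) := by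
    rw [Real.exp_neg, inv_eq_one_div, div_le_div_iff₀ (Real.exp_pos _) (by positivity)]
    have h3 := Real.add_one_le_exp (q / (m + 1))
    have h4 : (m + 1) * (q / (m + 1) + 1) = m + 1 + q := by field_simp; ring
    nlinarith
  have h3 : (m + 1) ^ (-q) = m ^ (-q) * (m / (m + 1)) ^ q := by
    rw [Real.div_rpow hm0.le (by positivity), Real.rpow_neg hm0.le, Real.rpow_neg (by positivity)]
    have : m ^ q ≠ 0 := (Real.rpow_pos_of_pos hm0 q).ne'
    field_simp
  have h4 : m ^ (-(q + 1)) = m ^ (-q) / m := by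
    rw [neg_add, Real.rpow_add hm0, Real.rpow_neg_one]
    rfl
  rw [h3, h4]
  have h5 : 0 < m ^ (-q) := Real.rpow_pos_of_pos hm0 _
  have h6 : 1 / m ≤ (q + 2) / q * (1 - (m / (m + 1)) ^ q) := by
    have h7 : (m / (m + 1)) ^ q ≤ (m + 1) / (m + 1 + q) := h1.trans h2
    have h8 : q / (m + 1 + q) ≤ 1 - (m / (m + 1)) ^ q := by
      have : q / (m + 1 + q) = 1 - (m + 1) / (m + 1 + q) := by field_simp; ring
      linarith
    calc 1 / m ≤ (q + 2) / q * (q / (m + 1 + q)) := by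
          rw [div_mul_div_comm, div_le_div_iff₀ hm0 (by positivity)]
          nlinarith [mul_nonneg (mul_nonneg hq.le (by linarith : 0 ≤ q + 1)) (by linarith : 0 ≤ m - 1)]
      _ ≤ _ := by gcongr
  calc m ^ (-q) / m = m ^ (-q) * (1 / m) := by ring
    _ ≤ m ^ (-q) * ((q + 2) / q * (1 - (m / (m + 1)) ^ q)) := by gcongr
    _ = _ := by ring

/-- Partial sums of the tail of `∑ m ^ (-(q + 1))`. -/
lemma sum_tail_le {q : ℝ} (hq : 0 < q) {M : ℝ} (hM : 1 ≤ M) (K : ℕ) :
    ∑ n ∈ range K, (M + n) ^ (-(q + 1)) ≤ (q + 2) / q * M ^ (-q) := by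
  have h1 : ∑ n ∈ range K, (M + n) ^ (-(q + 1)) ≤
      (q + 2) / q * (M ^ (-q) - (M + K) ^ (-q)) := by
    induction K with
    | zero => simp
    | succ K ih =>
      rw [Finset.sum_range_succ]
      have h2 := rpow_telescope hq (m := M + K) (by have : (0:ℝ) ≤ K := by positivity
                                                    linarith)
      have h3 : M + ((K + 1 : ℕ) : ℝ) = M + K + 1 := by push_cast; ring
      rw [h3]
      calc _ ≤ (q + 2) / q * (M ^ (-q) - (M + K) ^ (-q)) +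
            (q + 2) / q * ((M + K) ^ (-q) - (M + K + 1) ^ (-q)) := add_le_add ih h2
        _ = _ := by ring
  refine h1.trans ?_
  have h4 : 0 ≤ (M + K) ^ (-q) := Real.rpow_nonneg (by positivity) _
  have h5 : 0 < (q + 2) / q := by positivity
  nlinarith

lemma summable_tail {q : ℝ} (hq : 0 < q) {M : ℝ} (hM : 1 ≤ M) :
    Summable fun n : ℕ => (M + n) ^ (-(q + 1)) :=
  summable_of_sum_range_le (fun n => Real.rpow_nonneg (by positivity) _) (sum_tail_le hq hM)

lemma tsum_tail_le {q : ℝ} (hq : 0 < q) {M : ℝ} (hM : 1 ≤ M) :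
    ∑' n : ℕ, (M + n) ^ (-(q + 1)) ≤ (q + 2) / q * M ^ (-q) :=
  Real.tsum_le_of_sum_range_le (fun n => Real.rpow_nonneg (by positivity) _) (sum_tail_le hq hM)

/-- Partial sums of `∑ r ^ (-γ)` for `0 < γ < 1`. -/
lemma sum_head_le {γ : ℝ} (h0 : 0 < γ) (h1 : γ < 1) (K : ℕ) :
    ∑ n ∈ range K, ((n : ℝ) + 1) ^ (-γ) ≤ 1 / (1 - γ) * (K : ℝ) ^ (1 - γ) := by
  induction K with
  | zero =>
    simp only [range_zero, sum_empty, Nat.cast_zero]
    have : (0:ℝ) ≤ 0 ^ (1 - γ) := Real.rpow_nonneg le_rfl _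
    have h2 : 0 < 1 - γ := by linarith
    positivity
  | succ K ih =>
    rw [Finset.sum_range_succ]
    have h2 : 0 < 1 - γ := by linarith
    have h3 : ((K : ℝ) + 1) ^ (-γ) ≤ 1 / (1 - γ) * (((K : ℝ) + 1) ^ (1 - γ) - (K : ℝ) ^ (1 - γ)) := by
      -- concavity: `(K / (K + 1)) ^ (1 - γ) ≤ 1 - (1 - γ) / (K + 1)`
      have hK : (0 : ℝ) < (K : ℝ) + 1 := by positivity
      have h4 : ((K : ℝ) / (K + 1)) ^ (1 - γ) ≤ 1 - (1 - γ) / (K + 1) := by
        have h5 := rpow_one_add_le_one_add_mul_self (s := -(1 / ((K : ℝ) + 1)))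
          (by rw [neg_le_neg_iff, div_le_one hK]; linarith [(Nat.cast_nonneg K : (0:ℝ) ≤ K)])
          (p := 1 - γ) h2.le (by linarith)
        have h6 : 1 + -(1 / ((K : ℝ) + 1)) = (K : ℝ) / (K + 1) := by field_simp; ring
        rw [h6] at h5
        calc _ ≤ _ := h5
          _ = _ := by ring
      have h7 : (K : ℝ) ^ (1 - γ) = ((K : ℝ) + 1) ^ (1 - γ) * ((K : ℝ) / (K + 1)) ^ (1 - γ) := by
        rw [Real.div_rpow (by positivity) hK.le]
        have : ((K : ℝ) + 1) ^ (1 - γ) ≠ 0 := (Real.rpow_pos_of_pos hK _).ne'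
        field_simp
      have h8 : ((K : ℝ) + 1) ^ (-γ) = ((K : ℝ) + 1) ^ (1 - γ) / (K + 1) := by
        rw [show -γ = (1 - γ) + (-1) by ring, Real.rpow_add hK, Real.rpow_neg_one]
        rfl
      have h9 : 0 < ((K : ℝ) + 1) ^ (1 - γ) := Real.rpow_pos_of_pos hK _
      rw [h7, h8]
      have h10 : (1 - γ) / ((K : ℝ) + 1) ≤ 1 - ((K : ℝ) / (K + 1)) ^ (1 - γ) := by linarith
      calc ((K : ℝ) + 1) ^ (1 - γ) / (K + 1)
          = 1 / (1 - γ) * (((K : ℝ) + 1) ^ (1 - γ) * ((1 - γ) / (K + 1))) := by field_simp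
        _ ≤ 1 / (1 - γ) * (((K : ℝ) + 1) ^ (1 - γ) * (1 - ((K : ℝ) / (K + 1)) ^ (1 - γ))) := by
            gcongr
        _ = _ := by ring
    push_cast
    calc _ ≤ 1 / (1 - γ) * (K : ℝ) ^ (1 - γ) +
          1 / (1 - γ) * (((K : ℝ) + 1) ^ (1 - γ) - (K : ℝ) ^ (1 - γ)) := add_le_add ih h3
      _ = _ := by ring

end Pool.Agent.K3h95.DG
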