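import Mathlib
import Pool.Agent.K3h95.DG.Tail

/-! # The long-range quadratic form on finitely supported functions -/

set_option autoImplicit false

namespace Pool.Agent.K3h95.DG

open Finset

/-- the coupling -/
noncomputable def J (α : ℝ) (p : ℤ × ℤ) : ℝ :=
  if p.1 = p.2 then 0 else ((|p.1 - p.2| : ℤ) : ℝ) ^ (-α)

/-- the quadratic form, as a sum over ordered pairs -/
noncomputable def Bf (α : ℝ) (φ ψ : ℤ → ℝ) : ℝ :=
  ∑' p : ℤ × ℤ, J α p * ((φ p.1 - φ p.2) * (ψ p.1 - ψ p.2))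

lemma J_nonneg (α : ℝ) (p : ℤ × ℤ) : 0 ≤ J α p := by
  unfold J
  split_ifs
  · exact le_rfl
  · exact Real.rpow_nonneg (by positivity) _

lemma J_swap (α : ℝ) (p : ℤ × ℤ) : J α p.swap = J α p := by
  unfold J
  simp only [Prod.fst_swap, Prod.snd_swap]
  by_cases h : p.1 = p.2
  · simp [h]
  · rw [if_neg h, if_neg (fun h' => h h'.symm), abs_sub_comm]

lemma J_eq {α : ℝ} (hα : 0 < α) (x y : ℤ) : J α (x, y) = |((x - y : ℤ) : ℝ)| ^ (-α) := by
  unfold J
  by_cases h : x = y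
  · subst h
    simp only [if_true, sub_self, Int.cast_zero, abs_zero]
    rw [Real.zero_rpow (by linarith)]
  · simp only [if_neg h]
    rw [Int.cast_abs]

lemma summable_row {α : ℝ} (hα : 1 < α) (x : ℤ) : Summable fun y : ℤ => J α (x, y) := by
  have h1 : Summable fun n : ℤ => |(n : ℝ)| ^ (-α) := Real.summable_abs_int_rpow (by linarith)
  have h2 : Summable fun y : ℤ => |((x - y : ℤ) : ℝ)| ^ (-α) :=
    (Equiv.subLeft x).summable_iff (f := fun n : ℤ => |(n : ℝ)| ^ (-α)) |>.2 h1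
  refine h2.congr (fun y => ?_)
  rw [J_eq (by linarith)]

lemma summable_strip {α : ℝ} (hα : 1 < α) (N : ℕ) :
    Summable fun p : ℤ × ℤ => if |p.1| ≤ N then J α p else 0 := by
  have h0 : (0 : ℤ × ℤ → ℝ) ≤ fun p : ℤ × ℤ => if |p.1| ≤ N then J α p else 0 := by
    intro p
    simp only [Pi.zero_apply]
    split_ifs
    · exact J_nonneg α p
    · exact le_rfl
  rw [summable_prod_of_nonneg h0]
  constructor
  · intro x
    by_cases h : |x| ≤ N
    · simp only [h, if_true]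
      exact summable_row hα x
    · simp only [h, if_false]
      exact summable_zero
  · refine summable_of_ne_finset_zero (s := Finset.Icc (-(N : ℤ)) N) (fun x hx => ?_)
    have h : ¬ |x| ≤ N := by
      rw [abs_le]
      simpa [Finset.mem_Icc] using hx
    simp [h]

lemma summable_strip' {α : ℝ} (hα : 1 < α) (N : ℕ) :
    Summable fun p : ℤ × ℤ => if |p.2| ≤ N then J α p else 0 := by
  have h := (Equiv.prodComm ℤ ℤ).summable_iff.2 (summable_strip hα N)
  refine h.congr (fun p => ?_)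
  simp only [Function.comp_apply, Equiv.prodComm_apply, Prod.fst_swap]
  by_cases h : |p.2| ≤ N <;> simp [h, J_swap]

/-- supported in `[-N, N]` -/
def Supp (N : ℕ) (φ : ℤ → ℝ) : Prop := ∀ x : ℤ, (N : ℤ) < |x| → φ x = 0

lemma exists_bound {N : ℕ} {φ : ℤ → ℝ} (h : Supp N φ) : ∃ M : ℝ, 0 ≤ M ∧ ∀ x, |φ x| ≤ M := by
  refine ⟨∑ x ∈ Finset.Icc (-(N : ℤ)) N, |φ x|, Finset.sum_nonneg fun _ _ => abs_nonneg _, fun x => ?_⟩
  by_cases hx : |x| ≤ N
  · have hx' : x ∈ Finset.Icc (-(N : ℤ)) N := by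
      rw [Finset.mem_Icc]
      exact abs_le.1 hx
    exact Finset.single_le_sum (f := fun x => |φ x|) (fun _ _ => abs_nonneg _) hx'
  · rw [h x (not_le.1 hx), abs_zero]
    exact Finset.sum_nonneg fun _ _ => abs_nonneg _

lemma summable_form {α : ℝ} (hα : 1 < α) {N : ℕ} {φ ψ : ℤ → ℝ} (hφ : Supp N φ) (hψ : Supp N ψ) :
    Summable fun p : ℤ × ℤ => J α p * ((φ p.1 - φ p.2) * (ψ p.1 - ψ p.2)) := by
  obtain ⟨M, hM0, hM⟩ := exists_bound hφ
  obtain ⟨M', hM0', hM'⟩ := exists_bound hψ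
  refine Summable.of_norm_bounded
    (g := fun p : ℤ × ℤ => (2 * M) * (2 * M') * ((if |p.1| ≤ N then J α p else 0) +
      (if |p.2| ≤ N then J α p else 0)))
    (((summable_strip hα N).add (summable_strip' hα N)).mul_left _) (fun p => ?_)
  have hJ := J_nonneg α p
  by_cases h : |p.1| ≤ N ∨ |p.2| ≤ N
  · have h1 : J α p ≤ (if |p.1| ≤ N then J α p else 0) + (if |p.2| ≤ N then J α p else 0) := by
      rcases h with h | h
      · rw [if_pos h]
        split_ifs <;> linarith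
      · rw [if_pos h]
        split_ifs <;> linarith
    have h2 : |φ p.1 - φ p.2| ≤ 2 * M := by
      have := abs_sub (φ p.1) (φ p.2)
      linarith [hM p.1, hM p.2]
    have h3 : |ψ p.1 - ψ p.2| ≤ 2 * M' := by
      have := abs_sub (ψ p.1) (ψ p.2)
      linarith [hM' p.1, hM' p.2]
    rw [Real.norm_eq_abs, abs_mul, abs_mul, abs_of_nonneg hJ]
    calc J α p * (|φ p.1 - φ p.2| * |ψ p.1 - ψ p.2|) ≤ J α p * ((2 * M) * (2 * M')) := by
          gcongr
      _ = (2 * M) * (2 * M') * J α p := by ring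
      _ ≤ _ := by gcongr
  · push Not at h
    rw [hφ p.1 h.1, hφ p.2 h.2]
    simp only [sub_self, zero_mul, mul_zero, norm_zero]
    split_ifs <;> positivity

lemma Supp.add {N : ℕ} {φ ψ : ℤ → ℝ} (hφ : Supp N φ) (hψ : Supp N ψ) :
    Supp N (fun x => φ x + ψ x) := fun x hx => by simp only [hφ x hx, hψ x hx, add_zero]

lemma Bf_symm (α : ℝ) (φ ψ : ℤ → ℝ) : Bf α φ ψ = Bf α ψ φ := by
  unfold Bf
  exact tsum_congr fun p => by ring

lemma Bf_add_right {α : ℝ} (hα : 1 < α) {N : ℕ} {φ ψ χ : ℤ → ℝ} (hφ : Supp N φ) (hψ : Supp N ψ)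
    (hχ : Supp N χ) : Bf α φ (fun x => ψ x + χ x) = Bf α φ ψ + Bf α φ χ := by
  unfold Bf
  rw [← (summable_form hα hφ hψ).tsum_add (summable_form hα hφ hχ)]
  exact tsum_congr fun p => by ring

lemma Bf_neg_right (α : ℝ) (φ ψ : ℤ → ℝ) : Bf α φ (fun x => -ψ x) = -Bf α φ ψ := by
  unfold Bf
  rw [← tsum_neg]
  exact tsum_congr fun p => by ring

lemma Bf_self_nonneg (α : ℝ) (φ : ℤ → ℝ) : 0 ≤ Bf α φ φ :=
  tsum_nonneg fun p => mul_nonneg (J_nonneg α p) (mul_self_nonneg _)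

/-- coercivity: the form dominates a multiple of the sum of squares. -/
lemma coercive {α : ℝ} (hα : 1 < α) {N : ℕ} {φ : ℤ → ℝ} (hφ : Supp N φ) :
    ((2 * N + 1 : ℝ)) ^ (-α) * ∑ x ∈ Finset.Icc (-(N : ℤ)) N, φ x ^ 2 ≤ Bf α φ φ := by
  have h1 : ∑ x ∈ Finset.Icc (-(N : ℤ)) N, J α (x, (N : ℤ) + 1) * ((φ x - φ (N + 1)) * (φ x - φ (N + 1))) ≤
      Bf α φ φ := by
    have h2 := (summable_form hα hφ hφ).sum_le_tsum
      ((Finset.Icc (-(N : ℤ)) N).image (fun x => (x, (N : ℤ) + 1)))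
      (fun p _ => mul_nonneg (J_nonneg α p) (mul_self_nonneg _))
    rw [Finset.sum_image (fun x _ y _ h => (Prod.mk.inj h).1)] at h2
    exact h2
  refine le_trans ?_ h1
  rw [Finset.mul_sum]
  refine Finset.sum_le_sum fun x hx => ?_
  have hN1 : φ ((N : ℤ) + 1) = 0 := hφ _ (by
    rw [abs_of_nonneg (by positivity)]
    linarith)
  rw [hN1, sub_zero, ← sq]
  refine mul_le_mul_of_nonneg_right ?_ (sq_nonneg _)
  rw [Finset.mem_Icc] at hx
  have h3 : x ≠ (N : ℤ) + 1 := by omega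
  rw [J, if_neg h3]
  have h4 : |x - ((N : ℤ) + 1)| = (N : ℤ) + 1 - x := by
    rw [abs_of_nonpos (by omega)]
    ring
  simp only
  rw [h4]
  have h5 : (0 : ℝ) < (((N : ℤ) + 1 - x : ℤ) : ℝ) := by
    have : (0 : ℤ) < (N : ℤ) + 1 - x := by omega
    exact_mod_cast this
  have h6 : (((N : ℤ) + 1 - x : ℤ) : ℝ) ≤ 2 * N + 1 := by
    have : ((N : ℤ) + 1 - x : ℤ) ≤ 2 * N + 1 := by omega
    exact_mod_cast this
  exact Real.rpow_le_rpow_of_nonpos h5 h6 (by linarith)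

end Pool.Agent.K3h95.DG
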