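import Mathlib
import Pool.Agent.K3h95.DG.Form

/-! # The form between two symmetric intervals -/

set_option autoImplicit false

namespace Pool.Agent.K3h95.DG

open Finset

/-- indicator of `[-a, a]` -/
noncomputable def ind (a : ℕ) (x : ℤ) : ℝ := if |x| ≤ a then 1 else 0

lemma ind_supp {a N : ℕ} (h : a ≤ N) : Supp N (ind a) := fun x hx => by
  unfold ind
  rw [if_neg]
  have : (a : ℤ) ≤ N := by exact_mod_cast h
  omega

/-- cross term function -/
noncomputable def cr (α : ℝ) (a b : ℕ) (p : ℤ × ℤ) : ℝ :=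
  if |p.1| ≤ a ∧ (b : ℤ) < |p.2| then J α p else 0

lemma cr_nonneg (α : ℝ) (a b : ℕ) (p : ℤ × ℤ) : 0 ≤ cr α a b p := by
  unfold cr
  split_ifs
  · exact J_nonneg α p
  · exact le_rfl

lemma summable_cr {α : ℝ} (hα : 1 < α) (a b : ℕ) : Summable (cr α a b) := by
  refine Summable.of_nonneg_of_le (cr_nonneg α a b) (fun p => ?_) (summable_strip hα a)
  unfold cr
  by_cases h : |p.1| ≤ a
  · simp only [h, true_and, if_true]
    split_ifs
    · exact le_rfl
    · exact J_nonneg α p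
  · simp [h]

lemma cases_aux (A1 A2 B1 B2 : Prop) [Decidable A1] [Decidable A2] [Decidable B1] [Decidable B2]
    (e1 : A1 → B1) (e2 : A2 → B2) (c : ℝ) :
    c * (((if A1 then (1 : ℝ) else 0) - (if A2 then 1 else 0)) *
      ((if B1 then 1 else 0) - (if B2 then 1 else 0))) =
      (if A1 ∧ ¬ B2 then c else 0) + (if A2 ∧ ¬ B1 then c else 0) := by
  by_cases h1 : A1 <;> by_cases h2 : A2 <;> by_cases h3 : B1 <;> by_cases h4 : B2 <;>
    simp_all

lemma Bf_ind_eq {α : ℝ} (hα : 1 < α) {a b : ℕ} (hab : a ≤ b) :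
    Bf α (ind a) (ind b) = 2 * ∑' p, cr α a b p := by
  have h1 : ∑' p, cr α a b p = ∑' p : ℤ × ℤ, cr α a b p.swap :=
    ((Equiv.prodComm ℤ ℤ).tsum_eq (cr α a b)).symm
  have h2' : Summable (cr α a b ∘ (Equiv.prodComm ℤ ℤ)) :=
    ((Equiv.prodComm ℤ ℤ).summable_iff (f := cr α a b)).2 (summable_cr hα a b)
  have h2 : Summable fun p : ℤ × ℤ => cr α a b p.swap := h2'.congr fun p => rfl
  rw [two_mul]
  nth_rewrite 2 [h1]
  rw [← (summable_cr hα a b).tsum_add h2]
  unfold Bf
  refine tsum_congr fun p => ?_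
  have hab' : (a : ℤ) ≤ b := by exact_mod_cast hab
  have e1 : |p.1| ≤ (a : ℤ) → |p.1| ≤ (b : ℤ) := fun h => h.trans hab'
  have e2 : |p.2| ≤ (a : ℤ) → |p.2| ≤ (b : ℤ) := fun h => h.trans hab'
  unfold cr ind
  rw [J_swap]
  simp only [Prod.fst_swap, Prod.snd_swap, ← not_le]
  exact cases_aux _ _ _ _ e1 e2 _

/-- bound for one half row -/
lemma half_row {α : ℝ} (hα : 1 < α) {M : ℝ} (hM : 1 ≤ M) (b : ℕ) (f : ℕ → ℝ) (hf0 : ∀ n, n < b → f n = 0)
    (hfn : ∀ n, 0 ≤ f n) (hf : ∀ n, f (n + b) ≤ (M + n) ^ (-α)) (hfs : Summable f) :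
    ∑' n, f n ≤ (α + 1) / (α - 1) * M ^ (-(α - 1)) := by
  have hq : 0 < α - 1 := by linarith
  have h1 := tsum_tail_le hq hM
  have h2 := summable_tail hq hM
  have e1 : -(α - 1 + 1) = -α := by ring
  have e2 : α - 1 + 2 = α + 1 := by ring
  rw [e1] at h2
  rw [e1, e2] at h1
  rw [← hfs.sum_add_tsum_nat_add b]
  have h3 : ∑ i ∈ range b, f i = 0 := Finset.sum_eq_zero fun i hi => hf0 i (Finset.mem_range.1 hi)
  rw [h3, zero_add]
  refine le_trans ?_ h1
  exact Summable.tsum_le_tsum hf ((summable_nat_add_iff b).2 hfs) h2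

lemma row_bound {α : ℝ} (hα : 1 < α) {x : ℤ} {a b : ℕ} (hx : |x| ≤ a) (hab : a ≤ b) :
    ∑' y : ℤ, cr α a b (x, y) ≤
      2 * ((α + 1) / (α - 1) * ((b : ℝ) + 1 - ((|x| : ℤ) : ℝ)) ^ (-(α - 1))) := by
  have hs : Summable fun y : ℤ => cr α a b (x, y) := (summable_cr hα a b).prod_factor x
  have hab' : (a : ℤ) ≤ b := by exact_mod_cast hab
  have hs1 : Summable fun n : ℕ => cr α a b (x, (n : ℤ)) := hs.comp_injective Nat.cast_injective
  have hs2 : Summable fun n : ℕ => cr α a b (x, (-((n : ℤ) + 1))) :=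
    hs.comp_injective (i := fun n : ℕ => (-((n : ℤ) + 1))) (fun m n h => by
      simp only [neg_inj, add_left_inj, Nat.cast_inj] at h
      exact h)
  have hM : (1 : ℝ) ≤ (b : ℝ) + 1 - ((|x| : ℤ) : ℝ) := by
    have : ((|x| : ℤ) : ℝ) ≤ ((b : ℤ) : ℝ) := by exact_mod_cast hx.trans hab'
    rw [Int.cast_natCast] at this
    linarith
  -- the pointwise bound
  have hpt : ∀ (y : ℤ) (n : ℕ), (n : ℤ) + b + 1 = |y| →
      cr α a b (x, y) ≤ ((b : ℝ) + 1 - ((|x| : ℤ) : ℝ) + n) ^ (-α) := by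
    intro y n hy
    have h0 : (0 : ℝ) < (b : ℝ) + 1 - ((|x| : ℤ) : ℝ) + n := by positivity
    unfold cr
    split_ifs with h
    · rw [J_eq (by linarith)]
      refine Real.rpow_le_rpow_of_nonpos h0 ?_ (by linarith)
      have h1 : |y| - |x| ≤ |x - y| := by
        rw [abs_sub_comm]
        exact abs_sub_abs_le_abs_sub y x
      have h2 : (b : ℤ) + 1 - |x| + n ≤ |x - y| := by linarith
      rw [← Int.cast_abs]
      exact_mod_cast h2
    · exact Real.rpow_nonneg h0.le _
  rw [tsum_of_nat_of_neg_add_one (f := fun y : ℤ => cr α a b (x, y)) hs1 hs2, two_mul]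
  refine add_le_add ?_ ?_
  · refine half_row hα hM (b + 1) _ (fun n hn => ?_) (fun n => cr_nonneg _ _ _ _) (fun n => ?_) hs1
    · unfold cr
      rw [if_neg]
      rintro ⟨-, h⟩
      simp only [Nat.abs_cast] at h
      have : b < n := by exact_mod_cast h
      omega
    · refine hpt _ n ?_
      rw [abs_of_nonneg (by positivity)]
      push_cast
      ring
  · refine half_row hα hM b _ (fun n hn => ?_) (fun n => cr_nonneg _ _ _ _) (fun n => ?_) hs2
    · unfold cr
      rw [if_neg]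
      rintro ⟨-, h⟩
      simp only [abs_neg] at h
      rw [abs_of_nonneg (by positivity)] at h
      have : b < n + 1 := by exact_mod_cast h
      omega
    · refine hpt _ n ?_
      rw [abs_neg, abs_of_nonneg (by positivity)]
      push_cast
      ring

lemma tsum_cr_le {α : ℝ} (hα : 2 < α) {a b : ℕ} (hab : a ≤ b) :
    ∑' p, cr α a b p ≤
      4 * ((α + 1) / (α - 1) * (α / (α - 2))) * ((b : ℝ) - a + 1) ^ (-(α - 2)) := by
  have hα1 : 1 < α := by linarith
  have hab'' : (a : ℝ) ≤ b := by exact_mod_cast hab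
  rw [(summable_cr hα1 a b).tsum_prod]
  set C : ℝ := (α + 1) / (α - 1) with hC
  have hC0 : 0 < C := div_pos (by linarith) (by linarith)
  -- only the rows with `|x| ≤ a` contribute
  have h1 : ∑' x : ℤ, ∑' y : ℤ, cr α a b (x, y) =
      ∑ x ∈ Finset.Icc (-(a : ℤ)) a, ∑' y : ℤ, cr α a b (x, y) := by
    refine tsum_eq_sum fun x hx => ?_
    have h : ¬ |x| ≤ (a : ℤ) := by
      rw [abs_le]
      simpa [Finset.mem_Icc] using hx
    have : ∀ y : ℤ, cr α a b (x, y) = 0 := fun y => by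
      unfold cr
      rw [if_neg]
      exact fun h' => h h'.1
    simp [this]
  rw [h1]
  set F : ℕ → ℝ := fun u => 2 * (C * ((b : ℝ) + 1 - u) ^ (-(α - 1))) with hF
  have hF0 : ∀ u, u ≤ a → 0 ≤ F u := fun u hu => by
    have : (u : ℝ) ≤ a := by exact_mod_cast hu
    have : 0 ≤ (b : ℝ) + 1 - u := by linarith
    positivity
  have h2 : ∀ x ∈ Finset.Icc (-(a : ℤ)) a, ∑' y : ℤ, cr α a b (x, y) ≤ F x.natAbs := by
    intro x hx
    rw [Finset.mem_Icc] at hx
    have h3 := row_bound hα1 (x := x) (a := a) (b := b) (abs_le.2 hx) hab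
    rw [hF]
    simp only
    rw [Nat.cast_natAbs]
    exact h3
  refine (Finset.sum_le_sum h2).trans ?_
  -- fold the symmetric interval
  have h3 : ∑ x ∈ Finset.Icc (-(a : ℤ)) a, F x.natAbs ≤ 2 * ∑ u ∈ range (a + 1), F u := by
    have h4 : Finset.Icc (-(a : ℤ)) a ⊆ (range (a + 1)).image (fun u : ℕ => (u : ℤ)) ∪
        (range (a + 1)).image (fun u : ℕ => -(u : ℤ)) := by
      intro x hx
      rw [Finset.mem_Icc] at hx
      rw [Finset.mem_union, Finset.mem_image, Finset.mem_image]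
      rcases le_total 0 x with h | h
      · exact Or.inl ⟨x.natAbs, by rw [Finset.mem_range]; omega, by omega⟩
      · exact Or.inr ⟨x.natAbs, by rw [Finset.mem_range]; omega, by omega⟩
    have h5 : ∀ x ∈ (range (a + 1)).image (fun u : ℕ => (u : ℤ)) ∪
        (range (a + 1)).image (fun u : ℕ => -(u : ℤ)), 0 ≤ F x.natAbs := by
      intro x hx
      rw [Finset.mem_union, Finset.mem_image, Finset.mem_image] at hx
      rcases hx with ⟨u, hu, rfl⟩ | ⟨u, hu, rfl⟩
      · rw [Finset.mem_range] at hu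
        exact hF0 _ (by omega)
      · rw [Finset.mem_range] at hu
        exact hF0 _ (by omega)
    refine (Finset.sum_le_sum_of_subset_of_nonneg h4 fun x hx _ => h5 x hx).trans ?_
    have h6 : ∑ x ∈ (range (a + 1)).image (fun u : ℕ => (u : ℤ)), F x.natAbs =
        ∑ u ∈ range (a + 1), F u := by
      rw [Finset.sum_image fun u _ v _ h => by simpa using h]
      exact Finset.sum_congr rfl fun u _ => by simp
    have h7 : ∑ x ∈ (range (a + 1)).image (fun u : ℕ => -(u : ℤ)), F x.natAbs =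
        ∑ u ∈ range (a + 1), F u := by
      rw [Finset.sum_image fun u _ v _ h => by simpa using h]
      exact Finset.sum_congr rfl fun u _ => by simp
    have h8 : 0 ≤ ∑ x ∈ (range (a + 1)).image (fun u : ℕ => (u : ℤ)) ∩
        (range (a + 1)).image (fun u : ℕ => -(u : ℤ)), F x.natAbs :=
      Finset.sum_nonneg fun x hx => h5 x (Finset.mem_union_left _ (Finset.mem_inter.1 hx).1)
    have h9 := Finset.sum_union_inter (s₁ := (range (a + 1)).image (fun u : ℕ => (u : ℤ)))
      (s₂ := (range (a + 1)).image (fun u : ℕ => -(u : ℤ))) (f := fun x : ℤ => F x.natAbs)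
    rw [h6, h7] at h9
    linarith
  refine h3.trans ?_
  -- reflect and use the tail bound
  have h4 : ∑ u ∈ range (a + 1), F u =
      2 * C * ∑ n ∈ range (a + 1), ((b : ℝ) - a + 1 + n) ^ (-(α - 1)) := by
    rw [Finset.mul_sum, ← Finset.sum_range_reflect]
    refine Finset.sum_congr rfl fun n hn => ?_
    rw [Finset.mem_range] at hn
    simp only [hF]
    have h5 : ((a + 1 - 1 - n : ℕ) : ℝ) = a - n := by
      rw [Nat.add_sub_cancel, Nat.cast_sub (by omega)]
    rw [h5]
    have h6 : (b : ℝ) + 1 - (a - n) = (b : ℝ) - a + 1 + n := by ring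
    rw [h6]
    ring
  rw [h4]
  have h5 := sum_tail_le (q := α - 2) (by linarith) (M := (b : ℝ) - a + 1) (by linarith) (a + 1)
  have e1 : -(α - 2 + 1) = -(α - 1) := by ring
  have e2 : α - 2 + 2 = α := by ring
  rw [e1, e2] at h5
  calc 2 * (2 * C * ∑ n ∈ range (a + 1), ((b : ℝ) - a + 1 + n) ^ (-(α - 1)))
      ≤ 2 * (2 * C * (α / (α - 2) * ((b : ℝ) - a + 1) ^ (-(α - 2)))) := by gcongr
    _ = _ := by ring

/-- **The form between two symmetric intervals decays like a power of the distance of their ends.** -/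
theorem Bf_ind_le {α : ℝ} (hα : 2 < α) (a b : ℕ) :
    Bf α (ind a) (ind b) ≤
      8 * ((α + 1) / (α - 1) * (α / (α - 2))) * (|(a : ℝ) - b| + 1) ^ (-(α - 2)) := by
  have hα1 : 1 < α := by linarith
  rcases le_total a b with hab | hab
  · rw [Bf_ind_eq hα1 hab]
    have h1 := tsum_cr_le hα hab
    have h2 : |(a : ℝ) - b| = (b : ℝ) - a := by
      rw [abs_sub_comm, abs_of_nonneg]
      have : (a : ℝ) ≤ b := by exact_mod_cast hab
      linarith
    rw [h2]
    linarith
  · rw [Bf_symm, Bf_ind_eq hα1 hab]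
    have h1 := tsum_cr_le hα hab
    have h2 : |(a : ℝ) - b| = (a : ℝ) - b := by
      rw [abs_of_nonneg]
      have : (b : ℝ) ≤ a := by exact_mod_cast hab
      linarith
    rw [h2]
    linarith

end Pool.Agent.K3h95.DG
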