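import Mathlib
import Pool.Agent.K3h95.DG.Interval

/-! # Random integer valued pyramids -/

set_option autoImplicit false

namespace Pool.Agent.K3h95.DG

open Finset

/-- convolution type bound -/
lemma sum_dist_le (G : ℕ → ℝ) (hG : ∀ r, 0 ≤ G r) {l u : ℕ} (hu : u < l) :
    ∑ v ∈ range l, G (u - v + (v - u)) ≤ G 0 + 2 * ∑ r ∈ range l, G (r + 1) := by
  have h1 : range l = range u ∪ Finset.Ico u l := by
    ext v
    simp only [Finset.mem_range, Finset.mem_union, Finset.mem_Ico]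
    omega
  have h2 : Disjoint (range u) (Finset.Ico u l) := by
    rw [Finset.disjoint_left]
    intro v hv hv'
    rw [Finset.mem_range] at hv
    rw [Finset.mem_Ico] at hv'
    omega
  have h3 : ∑ v ∈ range l, G (u - v + (v - u)) =
      ∑ v ∈ range u, G (u - v + (v - u)) + ∑ v ∈ Finset.Ico u l, G (u - v + (v - u)) := by
    rw [h1, Finset.sum_union h2]
  have h4 : ∑ v ∈ range u, G (u - v + (v - u)) = ∑ r ∈ range u, G (r + 1) := by
    rw [← Finset.sum_range_reflect]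
    refine Finset.sum_congr rfl fun v hv => ?_
    rw [Finset.mem_range] at hv
    congr 1
    omega
  have h5 : ∑ v ∈ Finset.Ico u l, G (u - v + (v - u)) = ∑ r ∈ range (l - u), G r := by
    rw [Finset.sum_Ico_eq_sum_range]
    refine Finset.sum_congr rfl fun v _ => ?_
    congr 1
    omega
  have h6 : ∑ r ∈ range u, G (r + 1) ≤ ∑ r ∈ range l, G (r + 1) :=
    Finset.sum_le_sum_of_subset_of_nonneg (Finset.range_subset_range.2 hu.le) fun r _ _ => hG _
  have h7 : ∑ r ∈ range (l - u), G r ≤ G 0 + ∑ r ∈ range l, G (r + 1) := by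
    obtain ⟨m, hm⟩ : ∃ m, l - u = m + 1 := ⟨l - u - 1, by omega⟩
    rw [hm, Finset.sum_range_succ', add_comm]
    refine add_le_add le_rfl ?_
    exact Finset.sum_le_sum_of_subset_of_nonneg (Finset.range_subset_range.2 (by omega))
      fun r _ _ => hG _
  rw [h3, h4, h5]
  linarith

/-- position of the `i`-th jump -/
def pos (l : ℕ) {k : ℕ} (a : Fin k → Fin l) (i : Fin k) : ℕ := 2 * i * l + a i

/-- the integer valued pyramid -/
def prof (l : ℕ) {k : ℕ} (a : Fin k → Fin l) (x : ℤ) : ℤ :=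
  ∑ i, if |x| ≤ (pos l a i : ℤ) then 1 else 0

lemma pos_le {l k N : ℕ} (hl : 1 ≤ l) (h : 2 * k * l ≤ N + 2) (a : Fin k → Fin l) (i : Fin k) :
    pos l a i ≤ N := by
  unfold pos
  have h1 := (a i).isLt
  have h2 : (i : ℕ) + 1 ≤ k := i.isLt
  have h3 : 2 * ((i : ℕ) + 1) * l ≤ 2 * k * l := by gcongr
  have h4 : 2 * ((i : ℕ) + 1) * l = 2 * i * l + 2 * l := by ring
  omega

lemma pos_dist {l k : ℕ} (a a' : Fin k → Fin l) {i j : Fin k} (hij : (i : ℕ) ≠ j) :
    ((((i : ℕ) - j + (j - i) : ℕ) : ℤ) * l : ℤ) ≤ |(pos l a i : ℤ) - pos l a' j| := by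
  have hai : ((a i : ℕ) : ℤ) < l := by exact_mod_cast (a i).isLt
  have haj : ((a' j : ℕ) : ℤ) < l := by exact_mod_cast (a' j).isLt
  have hai0 : (0 : ℤ) ≤ ((a i : ℕ) : ℤ) := by positivity
  have haj0 : (0 : ℤ) ≤ ((a' j : ℕ) : ℤ) := by positivity
  have hl0 : (0 : ℤ) ≤ l := by positivity
  unfold pos
  rcases lt_or_gt_of_ne hij with h | h
  · obtain ⟨d, hd⟩ : ∃ d : ℕ, (j : ℕ) = i + d + 1 := ⟨j - i - 1, by omega⟩
    have h5 : (i : ℕ) - j + (j - i) = d + 1 := by omega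
    have h6 := neg_le_abs ((((2 * i * l + a i : ℕ) : ℤ)) - ((2 * j * l + a' j : ℕ) : ℤ))
    refine le_trans ?_ h6
    rw [h5, hd]
    push_cast
    have hd0 : (0 : ℤ) ≤ (d : ℤ) * l := by positivity
    nlinarith
  · obtain ⟨d, hd⟩ : ∃ d : ℕ, (i : ℕ) = j + d + 1 := ⟨i - j - 1, by omega⟩
    have h5 : (i : ℕ) - j + (j - i) = d + 1 := by omega
    have h6 := le_abs_self ((((2 * i * l + a i : ℕ) : ℤ)) - ((2 * j * l + a' j : ℕ) : ℤ))
    refine le_trans ?_ h6
    rw [h5, hd]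
    push_cast
    have hd0 : (0 : ℤ) ≤ (d : ℤ) * l := by positivity
    nlinarith

lemma prof_cast (l : ℕ) {k : ℕ} (a : Fin k → Fin l) :
    (fun x => ((prof l a x : ℤ) : ℝ)) = fun x => ∑ i ∈ (Finset.univ : Finset (Fin k)), ind (pos l a i) x := by
  funext x
  unfold prof ind
  push_cast
  rfl

lemma prof_zero (l : ℕ) {k : ℕ} (a : Fin k → Fin l) : prof l a 0 = k := by
  unfold prof
  simp

lemma Supp_zero (N : ℕ) : Supp N (fun _ => 0) := fun _ _ => rfl

lemma Supp.sum {N : ℕ} {ι : Type*} (s : Finset ι) {f : ι → ℤ → ℝ} (h : ∀ i, Supp N (f i)) :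
    Supp N (fun x => ∑ i ∈ s, f i x) := fun x hx => Finset.sum_eq_zero fun i _ => h i x hx

lemma Bf_zero_right (α : ℝ) (φ : ℤ → ℝ) : Bf α φ (fun _ => 0) = 0 := by
  unfold Bf
  simp

lemma Bf_sum_right {α : ℝ} (hα : 1 < α) {N : ℕ} {ι : Type*} (s : Finset ι) {φ : ℤ → ℝ}
    (hφ : Supp N φ) {f : ι → ℤ → ℝ} (h : ∀ i, Supp N (f i)) :
    Bf α φ (fun x => ∑ i ∈ s, f i x) = ∑ i ∈ s, Bf α φ (f i) := by
  classical
  induction s using Finset.induction_on with
  | empty => simp [Bf_zero_right]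
  | insert i s hi ih =>
    rw [Finset.sum_insert hi, ← ih, ← Bf_add_right hα hφ (h i) (Supp.sum s h)]
    congr 1
    funext x
    rw [Finset.sum_insert hi]

lemma Bf_sum_sum {α : ℝ} (hα : 1 < α) {N : ℕ} {ι κ : Type*} (s : Finset ι) (t : Finset κ)
    {f : ι → ℤ → ℝ} {g : κ → ℤ → ℝ} (hf : ∀ i, Supp N (f i)) (hg : ∀ i, Supp N (g i)) :
    Bf α (fun x => ∑ i ∈ s, f i x) (fun x => ∑ j ∈ t, g j x) =
      ∑ i ∈ s, ∑ j ∈ t, Bf α (f i) (g j) := by
  rw [Bf_sum_right hα t (Supp.sum s hf) hg, Finset.sum_comm]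
  refine Finset.sum_congr rfl fun j _ => ?_
  rw [Bf_symm, Bf_sum_right hα s (hg j) hf]
  exact Finset.sum_congr rfl fun i _ => Bf_symm _ _ _

/-- the constant in the interval estimate -/
noncomputable def C1 (α : ℝ) : ℝ := 8 * ((α + 1) / (α - 1) * (α / (α - 2)))

lemma C1_pos {α : ℝ} (hα : 2 < α) : 0 < C1 α := by
  unfold C1
  have h1 : 0 < α - 1 := by linarith
  have h2 : 0 < α - 2 := by linarith
  have h3 : 0 < α := by linarith
  positivity

/-- overlaps of two pyramids -/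
lemma overlap_le {α : ℝ} (hα : 2 < α) (hα3 : α < 3) {k l : ℕ} (hk : 1 ≤ k) (hl : 1 ≤ l)
    (a a' : Fin k → Fin l) :
    Bf α (fun x => ((prof l a x : ℤ) : ℝ)) (fun x => ((prof l a' x : ℤ) : ℝ)) ≤
      C1 α * ∑ i, (|((a i : ℕ) : ℝ) - ((a' i : ℕ) : ℝ)| + 1) ^ (-(α - 2)) +
        C1 α * (2 / (3 - α)) * ((k : ℝ) ^ 2 * ((k : ℝ) * l) ^ (-(α - 2))) := by
  have hα1 : 1 < α := by linarith
  have hC := C1_pos hα
  have hk0 : (0 : ℝ) < k := by exact_mod_cast hk
  have hl0 : (0 : ℝ) < l := by exact_mod_cast hl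
  obtain ⟨N, hN⟩ : ∃ N : ℕ, 2 * k * l ≤ N + 2 := ⟨2 * k * l, by omega⟩
  rw [prof_cast, prof_cast, Bf_sum_sum hα1 (N := N) _ _ (fun i => ind_supp (pos_le hl hN a i))
    (fun i => ind_supp (pos_le hl hN a' i))]
  -- the off-diagonal weights
  set G : ℕ → ℝ := fun r => if r = 0 then 0 else ((r : ℝ) * l) ^ (-(α - 2)) with hG
  have hG0 : ∀ r, 0 ≤ G r := fun r => by
    simp only [hG]
    split_ifs
    · exact le_rfl
    · positivity
  have h1 : ∀ i j : Fin k, Bf α (ind (pos l a i)) (ind (pos l a' j)) ≤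
      C1 α * ((if i = j then (|((a i : ℕ) : ℝ) - ((a' i : ℕ) : ℝ)| + 1) ^ (-(α - 2)) else 0) +
        G ((i : ℕ) - j + (j - i))) := by
    intro i j
    refine (Bf_ind_le hα _ _).trans ?_
    rw [← C1]
    refine mul_le_mul_of_nonneg_left ?_ hC.le
    by_cases hij : i = j
    · subst hij
      have h2 : ((i : ℕ) - i + (i - i)) = 0 := by omega
      rw [if_pos rfl, h2]
      simp only [hG, if_true, add_zero]
      apply le_of_eq
      congr 2
      unfold pos
      push_cast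
      congr 1
      ring
    · rw [if_neg hij, zero_add]
      have hij' : (i : ℕ) ≠ j := fun h => hij (Fin.ext h)
      have h2 : (i : ℕ) - j + (j - i) ≠ 0 := by omega
      simp only [hG]
      rw [if_neg h2]
      have h3 : (0 : ℝ) < (((i : ℕ) - j + (j - i) : ℕ) : ℝ) := by
        have : 0 < (i : ℕ) - j + (j - i) := by omega
        exact_mod_cast this
      refine Real.rpow_le_rpow_of_nonpos (by positivity) ?_ (by linarith)
      -- distance of the positions
      have h4 := pos_dist a a' hij'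
      have h5 : (((i : ℕ) - j + (j - i) : ℕ) : ℝ) * l ≤ |(pos l a i : ℝ) - pos l a' j| := by
        have h6 : (((((i : ℕ) - j + (j - i) : ℕ) : ℤ) * l : ℤ) : ℝ) ≤
            ((|(pos l a i : ℤ) - pos l a' j| : ℤ) : ℝ) := by exact_mod_cast h4
        push_cast at h6 ⊢
        exact h6
      linarith
  refine (Finset.sum_le_sum fun i _ => Finset.sum_le_sum fun j _ => h1 i j).trans ?_
  have h2 : ∀ i : Fin k, ∑ j : Fin k, C1 α * ((if i = j then
      (|((a i : ℕ) : ℝ) - ((a' i : ℕ) : ℝ)| + 1) ^ (-(α - 2)) else 0) + G ((i : ℕ) - j + (j - i))) ≤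
      C1 α * (|((a i : ℕ) : ℝ) - ((a' i : ℕ) : ℝ)| + 1) ^ (-(α - 2)) +
        C1 α * (2 * ((l : ℝ) ^ (-(α - 2)) * (1 / (1 - (α - 2)) * (k : ℝ) ^ (1 - (α - 2))))) := by
    intro i
    rw [← Finset.mul_sum, ← mul_add, Finset.sum_add_distrib, Finset.sum_ite_eq]
    simp only [Finset.mem_univ, if_true]
    refine mul_le_mul_of_nonneg_left (add_le_add le_rfl ?_) hC.le
    have h3 := sum_dist_le G hG0 i.isLt
    rw [Fin.sum_univ_eq_sum_range (fun j => G ((i : ℕ) - j + (j - i))) k]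
    refine h3.trans ?_
    have h4 : G 0 = 0 := by simp [hG]
    rw [h4, zero_add]
    refine mul_le_mul_of_nonneg_left ?_ (by norm_num)
    have h5 : ∑ r ∈ range k, G (r + 1) = (l : ℝ) ^ (-(α - 2)) * ∑ r ∈ range k, ((r : ℝ) + 1) ^ (-(α - 2)) := by
      rw [Finset.mul_sum]
      refine Finset.sum_congr rfl fun r _ => ?_
      simp only [hG]
      rw [if_neg (Nat.succ_ne_zero r), Real.mul_rpow (by positivity) hl0.le]
      push_cast
      ring
    rw [h5]
    refine mul_le_mul_of_nonneg_left ?_ (by positivity)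
    exact sum_head_le (by linarith) (by linarith) k
  refine (Finset.sum_le_sum fun i _ => h2 i).trans ?_
  rw [Finset.sum_add_distrib, Finset.sum_const, Finset.card_univ, Fintype.card_fin, nsmul_eq_mul,
    ← Finset.mul_sum]
  refine add_le_add le_rfl (le_of_eq ?_)
  have e1 : 1 - (α - 2) = 3 - α := by ring
  have e2 : (k : ℝ) ^ (3 - α) = (k : ℝ) * (k : ℝ) ^ (-(α - 2)) := by
    rw [show 3 - α = 1 + -(α - 2) by ring, Real.rpow_add hk0, Real.rpow_one]
  rw [e1, e2, Real.mul_rpow hk0.le hl0.le]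
  have h3 : (3 - α) ≠ 0 := by linarith
  field_simp

end Pool.Agent.K3h95.DG
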