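import Mathlib
import Pool.Agent.K3h95.DG.HCR
import Pool.Agent.K3h95.DG.Profile

/-! # The lower bound for the variance of the long-range discrete Gaussian chain -/

set_option autoImplicit false

namespace Pool.Agent.K3h95.DG

open Finset

/-- the averaged exponential of the diagonal overlaps -/
lemma sum_exp_diag {α : ℝ} (hα : 2 < α) (hα3 : α < 3) {c : ℝ} (hc : 0 < c) {k l : ℕ} (hl : 1 ≤ l) :
    ∑ a : Fin k → Fin l, ∑ a' : Fin k → Fin l,
      Real.exp (c * ∑ i, (|((a i : ℕ) : ℝ) - ((a' i : ℕ) : ℝ)| + 1) ^ (-(α - 2))) ≤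
      (((l : ℝ) ^ k) ^ 2) * Real.exp (3 * c * Real.exp c / (3 - α) * (k * (l : ℝ) ^ (-(α - 2)))) := by
  have hl0 : (0 : ℝ) < l := by exact_mod_cast hl
  have h3α : 0 < 3 - α := by linarith
  set t : ℕ → ℕ → ℝ := fun u v => (|(u : ℝ) - (v : ℝ)| + 1) ^ (-(α - 2)) with ht
  have ht0 : ∀ u v, 0 ≤ t u v := fun u v => Real.rpow_nonneg (by positivity) _
  have ht1 : ∀ u v, t u v ≤ 1 := fun u v =>
    Real.rpow_le_one_of_one_le_of_nonpos (by linarith [abs_nonneg ((u : ℝ) - (v : ℝ))]) (by linarith)
  -- factorise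
  have h1 : ∀ a : Fin k → Fin l, ∑ a' : Fin k → Fin l, Real.exp (c * ∑ i, t (a i) (a' i)) =
      ∏ i, ∑ v : Fin l, Real.exp (c * t (a i) v) := by
    intro a
    rw [Finset.prod_univ_sum]
    simp only [Fintype.piFinset_univ]
    refine Finset.sum_congr rfl fun a' _ => ?_
    rw [Finset.mul_sum, Real.exp_sum]
  have h2 : ∑ a : Fin k → Fin l, ∏ i, ∑ v : Fin l, Real.exp (c * t (a i) v) =
      (∑ u : Fin l, ∑ v : Fin l, Real.exp (c * t u v)) ^ k := by
    have h3 := Finset.prod_univ_sum (fun _ : Fin k => (Finset.univ : Finset (Fin l)))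
      (fun (_ : Fin k) (u : Fin l) => ∑ v : Fin l, Real.exp (c * t u v))
    rw [Finset.prod_const, Finset.card_univ, Fintype.card_fin] at h3
    rw [h3, Fintype.piFinset_univ]
  calc ∑ a : Fin k → Fin l, ∑ a' : Fin k → Fin l, Real.exp (c * ∑ i, t (a i) (a' i))
      = (∑ u : Fin l, ∑ v : Fin l, Real.exp (c * t u v)) ^ k := by
        rw [← h2]
        exact Finset.sum_congr rfl fun a _ => h1 a
    _ ≤ ((l : ℝ) ^ 2 * (1 + 3 * c * Real.exp c / (3 - α) * (l : ℝ) ^ (-(α - 2)))) ^ k := by
        refine pow_le_pow_left₀ (Finset.sum_nonneg fun u _ => Finset.sum_nonneg fun v _ =>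
          (Real.exp_pos _).le) ?_ k
        -- pointwise bound of the exponential
        have h4 : ∀ u v : ℕ, Real.exp (c * t u v) ≤ 1 + c * Real.exp c * t u v := by
          intro u v
          have h5 := Real.add_one_le_exp (-(c * t u v))
          have h6 : Real.exp (c * t u v) ≤ Real.exp c := by
            rw [Real.exp_le_exp]
            nlinarith [ht1 u v]
          have h7 : Real.exp (c * t u v) * Real.exp (-(c * t u v)) = 1 := by
            rw [← Real.exp_add]
            simp
          have h8 : 0 ≤ c * t u v := mul_nonneg hc.le (ht0 u v)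
          have h9 : Real.exp (c * t u v) * (1 - c * t u v) ≤ 1 := by
            calc Real.exp (c * t u v) * (1 - c * t u v)
                ≤ Real.exp (c * t u v) * Real.exp (-(c * t u v)) :=
                  mul_le_mul_of_nonneg_left (by linarith) (Real.exp_pos _).le
              _ = 1 := h7
          have h10 : Real.exp (c * t u v) * (c * t u v) ≤ Real.exp c * (c * t u v) :=
            mul_le_mul_of_nonneg_right h6 h8
          linarith
        have h5 : ∀ u : Fin l, ∑ v : Fin l, Real.exp (c * t u v) ≤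
            l * (1 + 3 * c * Real.exp c / (3 - α) * (l : ℝ) ^ (-(α - 2))) := by
          intro u
          have hh : ∑ v : Fin l, Real.exp (c * t u v) ≤ ∑ v : Fin l, (1 + c * Real.exp c * t u v) :=
            Finset.sum_le_sum fun v _ => h4 u v
          refine hh.trans ?_
          rw [Finset.sum_add_distrib, Finset.sum_const, Finset.card_univ, Fintype.card_fin,
            nsmul_eq_mul, mul_one, ← Finset.mul_sum]
          have h6 : ∑ v : Fin l, t u v ≤ 3 * (1 / (3 - α) * (l : ℝ) ^ (3 - α)) := by
            set G : ℕ → ℝ := fun r => ((r : ℝ) + 1) ^ (-(α - 2)) with hG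
            have hG0 : ∀ r, 0 ≤ G r := fun r => Real.rpow_nonneg (by positivity) _
            have h7 := sum_dist_le G hG0 u.isLt
            have h8 : ∑ v : Fin l, t u v = ∑ v ∈ range l, G ((u : ℕ) - v + (v - u)) := by
              rw [← Fin.sum_univ_eq_sum_range (fun v => G ((u : ℕ) - v + (v - u))) l]
              refine Finset.sum_congr rfl fun v _ => ?_
              simp only [ht, hG]
              congr 2
              rcases le_total (u : ℕ) v with h | h
              · have h9 : (u : ℕ) - v + (v - u) = v - u := by omega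
                rw [h9, Nat.cast_sub h, abs_sub_comm, abs_of_nonneg]
                have : ((u : ℕ) : ℝ) ≤ (v : ℕ) := by exact_mod_cast h
                linarith
              · have h9 : (u : ℕ) - v + (v - u) = u - v := by omega
                rw [h9, Nat.cast_sub h, abs_of_nonneg]
                have : ((v : ℕ) : ℝ) ≤ (u : ℕ) := by exact_mod_cast h
                linarith
            have h9 : ∑ r ∈ range l, G (r + 1) ≤ ∑ r ∈ range l, G r := by
              refine Finset.sum_le_sum fun r _ => ?_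
              simp only [hG]
              refine Real.rpow_le_rpow_of_nonpos (by positivity) ?_ (by linarith)
              push_cast
              linarith
            have h10 : G 0 ≤ ∑ r ∈ range l, G r :=
              Finset.single_le_sum (f := G) (fun r _ => hG0 r) (Finset.mem_range.2 hl)
            have h11 := sum_head_le (γ := α - 2) (by linarith) (by linarith) l
            have e1 : 1 - (α - 2) = 3 - α := by ring
            rw [e1] at h11
            rw [h8]
            linarith
          have h7 : (l : ℝ) ^ (3 - α) = l * (l : ℝ) ^ (-(α - 2)) := by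
            rw [show 3 - α = 1 + -(α - 2) by ring, Real.rpow_add hl0, Real.rpow_one]
          rw [h7] at h6
          have h8 : c * Real.exp c * ∑ v : Fin l, t u v ≤
              c * Real.exp c * (3 * (1 / (3 - α) * (l * (l : ℝ) ^ (-(α - 2))))) :=
            mul_le_mul_of_nonneg_left h6 (by positivity)
          calc _ ≤ (l : ℝ) + c * Real.exp c * (3 * (1 / (3 - α) * (l * (l : ℝ) ^ (-(α - 2))))) := by
                linarith
            _ = _ := by ring
        refine (Finset.sum_le_sum fun u _ => h5 u).trans (le_of_eq ?_)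
        rw [Finset.sum_const, Finset.card_univ, Fintype.card_fin, nsmul_eq_mul]
        ring
    _ ≤ _ := by
        rw [mul_pow, ← pow_mul, ← pow_mul, mul_comm 2 k]
        refine mul_le_mul_of_nonneg_left ?_ (by positivity)
        have h4 := Real.add_one_le_exp (3 * c * Real.exp c / (3 - α) * (l : ℝ) ^ (-(α - 2)))
        calc (1 + 3 * c * Real.exp c / (3 - α) * (l : ℝ) ^ (-(α - 2))) ^ k
            ≤ (Real.exp (3 * c * Real.exp c / (3 - α) * (l : ℝ) ^ (-(α - 2)))) ^ k :=
              pow_le_pow_left₀ (by positivity) (by linarith) k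
          _ = _ := by
              rw [← Real.exp_nat_mul]
              congr 1
              ring

/-- the constant -/
noncomputable def D (α β : ℝ) : ℝ :=
  2 * (2 * β * C1 α) / (3 - α) + 3 * (2 * β * C1 α) * Real.exp (2 * β * C1 α) / (3 - α)

lemma D_pos {α β : ℝ} (hα : 2 < α) (hα3 : α < 3) (hβ : 0 < β) : 0 < D α β := by
  unfold D
  have := C1_pos hα
  have : 0 < 3 - α := by linarith
  positivity

/-- the averaged exponential overlap of two independent random pyramids -/
theorem sum_overlap {α β : ℝ} (hα : 2 < α) (hα3 : α < 3) (hβ : 0 < β) {k l : ℕ} (hk : 1 ≤ k)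
    (hl : 1 ≤ l) :
    ∑ a : Fin k → Fin l, ∑ a' : Fin k → Fin l,
      Real.exp (2 * β * Bf α (fun x => ((prof l a x : ℤ) : ℝ)) (fun x => ((prof l a' x : ℤ) : ℝ))) ≤
      Real.exp (D α β * ((k : ℝ) ^ 2 * ((k : ℝ) * l) ^ (-(α - 2)))) * (((l : ℝ) ^ k) ^ 2) := by
  have hC := C1_pos hα
  have hk0 : (0 : ℝ) < k := by exact_mod_cast hk
  have hl0 : (0 : ℝ) < l := by exact_mod_cast hl
  have h3α : 0 < 3 - α := by linarith
  set c := 2 * β * C1 α with hc
  have hc0 : 0 < c := by positivity
  set P := (k : ℝ) ^ 2 * ((k : ℝ) * l) ^ (-(α - 2)) with hP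
  have hP0 : 0 < P := by positivity
  have h1 : ∀ a a' : Fin k → Fin l,
      Real.exp (2 * β * Bf α (fun x => ((prof l a x : ℤ) : ℝ)) (fun x => ((prof l a' x : ℤ) : ℝ))) ≤
      Real.exp (c * (2 / (3 - α)) * P) *
        Real.exp (c * ∑ i, (|((a i : ℕ) : ℝ) - ((a' i : ℕ) : ℝ)| + 1) ^ (-(α - 2))) := by
    intro a a'
    rw [← Real.exp_add, Real.exp_le_exp]
    have h2 := overlap_le hα hα3 hk hl a a'
    rw [← hP] at h2
    have h3 := mul_le_mul_of_nonneg_left h2 (by positivity : 0 ≤ 2 * β)
    refine h3.trans (le_of_eq ?_)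
    rw [hc]
    ring
  refine (Finset.sum_le_sum fun a _ => Finset.sum_le_sum fun a' _ => h1 a a').trans ?_
  simp_rw [← Finset.mul_sum]
  have h2 := sum_exp_diag hα hα3 hc0 (k := k) hl
  refine (mul_le_mul_of_nonneg_left h2 (Real.exp_pos _).le).trans ?_
  rw [mul_left_comm, mul_comm]
  refine mul_le_mul_of_nonneg_right ?_ (by positivity)
  rw [← Real.exp_add, Real.exp_le_exp]
  -- `k l ^ (-γ) ≤ P`
  have h3 : (k : ℝ) * (l : ℝ) ^ (-(α - 2)) ≤ P := by
    rw [hP, Real.mul_rpow hk0.le hl0.le, ← mul_assoc]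
    refine mul_le_mul_of_nonneg_right ?_ (by positivity)
    have h4 : (k : ℝ) = (k : ℝ) ^ 2 * (k : ℝ) ^ (-(1 : ℝ)) := by
      rw [Real.rpow_neg_one]
      field_simp
    have h5 : (k : ℝ) ^ (-(1 : ℝ)) ≤ (k : ℝ) ^ (-(α - 2)) :=
      Real.rpow_le_rpow_of_exponent_le (by exact_mod_cast hk) (by linarith)
    calc (k : ℝ) = (k : ℝ) ^ 2 * (k : ℝ) ^ (-(1 : ℝ)) := h4
      _ ≤ _ := mul_le_mul_of_nonneg_left h5 (by positivity)
  have h4 : 3 * c * Real.exp c / (3 - α) * ((k : ℝ) * (l : ℝ) ^ (-(α - 2))) ≤
      3 * c * Real.exp c / (3 - α) * P := mul_le_mul_of_nonneg_left h3 (by positivity)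
  have h5 : D α β = c * (2 / (3 - α)) + 3 * c * Real.exp c / (3 - α) := by
    rw [D, ← hc]
    ring
  rw [h5]
  linarith

end Pool.Agent.K3h95.DG
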