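import Mathlib
import Pool.Agent.K3h95.DG.Main

/-! # The discrete Gaussian chain -/

set_option autoImplicit false

namespace Pool.Agent.K3h95.DG

open Finset

/-- integer valued functions vanishing outside `[-N, N]` -/
def GN (N : ℕ) : AddSubgroup (ℤ → ℤ) where
  carrier := {φ | ∀ x : ℤ, (N : ℤ) < |x| → φ x = 0}
  zero_mem' := fun _ _ => rfl
  add_mem' := fun {a b} ha hb x hx => by
    simp only [Pi.add_apply, ha x hx, hb x hx, add_zero]
  neg_mem' := fun {a} ha x hx => by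
    simp only [Pi.neg_apply, ha x hx, neg_zero]

/-- cast to a real function -/
def re {N : ℕ} (φ : GN N) : ℤ → ℝ := fun x => ((φ.1 x : ℤ) : ℝ)

lemma re_supp {N : ℕ} (φ : GN N) : Supp N (re φ) := fun x hx => by
  unfold re
  rw [φ.2 x hx, Int.cast_zero]

lemma re_add {N : ℕ} (φ ψ : GN N) : re (φ + ψ) = fun x => re φ x + re ψ x := by
  funext x
  simp [re]

lemma re_neg {N : ℕ} (φ : GN N) : re (-φ) = fun x => -re φ x := by
  funext x
  simp [re]

/-- the bilinear form on the group -/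
noncomputable def B (α : ℝ) {N : ℕ} (φ ψ : GN N) : ℝ := Bf α (re φ) (re ψ)

section
variable {α : ℝ} {N : ℕ}

lemma B_symm (φ ψ : GN N) : B α φ ψ = B α ψ φ := Bf_symm _ _ _

lemma B_add_right (hα : 1 < α) (φ ψ χ : GN N) : B α φ (ψ + χ) = B α φ ψ + B α φ χ := by
  unfold B
  rw [re_add]
  exact Bf_add_right hα (re_supp φ) (re_supp ψ) (re_supp χ)

lemma B_neg_right (φ ψ : GN N) : B α φ (-ψ) = -B α φ ψ := by
  unfold B
  rw [re_neg]
  exact Bf_neg_right _ _ _

lemma B_neg_left (φ ψ : GN N) : B α (-φ) ψ = -B α φ ψ := by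
  rw [B_symm, B_neg_right, B_symm]

lemma B_add_left (hα : 1 < α) (φ ψ χ : GN N) : B α (φ + ψ) χ = B α φ χ + B α ψ χ := by
  rw [B_symm, B_add_right hα, B_symm χ φ, B_symm χ ψ]

end

/-- the Gibbs weight -/
noncomputable def wt (α β : ℝ) {N : ℕ} (φ : GN N) : ℝ := Real.exp (-β * B α φ φ)

/-- restriction to the box is injective -/
lemma restrict_injective (N : ℕ) : Function.Injective
    (fun (φ : GN N) (x : Finset.Icc (-(N : ℤ)) N) => φ.1 x) := by
  intro φ ψ h
  ext x
  by_cases hx : |x| ≤ N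
  · exact congrFun h ⟨x, by rw [Finset.mem_Icc]; exact abs_le.1 hx⟩
  · rw [φ.2 x (not_le.1 hx), ψ.2 x (not_le.1 hx)]

lemma summable_exp_sq {c : ℝ} (hc : 0 < c) : Summable fun m : ℤ => Real.exp (-c * (m : ℝ) ^ 2) := by
  have h1 : Summable fun n : ℕ => Real.exp (-c * (n : ℝ)) := by
    have := Real.summable_exp_nat_mul_iff.2 (show -c < 0 by linarith)
    refine this.congr fun n => ?_
    rw [mul_comm]
  have h2 : Summable fun n : ℕ => Real.exp (-c * (n : ℝ) ^ 2) := by
    refine Summable.of_nonneg_of_le (fun n => (Real.exp_pos _).le) (fun n => ?_) h1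
    rw [Real.exp_le_exp]
    have h3 : (n : ℝ) ≤ (n : ℝ) ^ 2 := by
      rcases Nat.eq_zero_or_pos n with rfl | h
      · simp
      · have : (1 : ℝ) ≤ n := by exact_mod_cast h
        nlinarith
    nlinarith
  refine Summable.of_nat_of_neg ?_ ?_
  · simpa using h2
  · simpa using h2

lemma summable_wt {α β : ℝ} (hα : 1 < α) (hβ : 0 < β) (N : ℕ) :
    Summable fun φ : GN N => wt α β φ := by
  set c : ℝ := β * (2 * N + 1 : ℝ) ^ (-α) with hc
  have hc0 : 0 < c := by positivity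
  have h1 : Summable fun v : Finset.Icc (-(N : ℤ)) N → ℤ => ∏ x, Real.exp (-c * (v x : ℝ) ^ 2) :=
    summable_pi_prod (fun _ (m : ℤ) => Real.exp (-c * (m : ℝ) ^ 2)) (fun _ _ => (Real.exp_pos _).le)
      (fun _ => summable_exp_sq hc0)
  have h2 := h1.comp_injective (restrict_injective N)
  refine Summable.of_nonneg_of_le (fun φ => (Real.exp_pos _).le) (fun φ => ?_) h2
  simp only [Function.comp_apply]
  rw [← Real.exp_sum, wt, Real.exp_le_exp, ← Finset.mul_sum]
  have h3 := coercive hα (re_supp φ)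
  have h4 : ∑ x : Finset.Icc (-(N : ℤ)) N, ((φ.1 x : ℤ) : ℝ) ^ 2 =
      ∑ x ∈ Finset.Icc (-(N : ℤ)) N, re φ x ^ 2 :=
    Finset.sum_coe_sort (Finset.Icc (-(N : ℤ)) N) (fun x => re φ x ^ 2)
  rw [h4, hc]
  have h5 := mul_le_mul_of_nonneg_left h3 hβ.le
  unfold B
  nlinarith

/-- the height at the origin -/
def X0 (N : ℕ) : GN N →+ ℝ where
  toFun φ := re φ 0
  map_zero' := by simp [re]
  map_add' φ ψ := by simp [re]

lemma summable_X0 {α β : ℝ} (hα : 1 < α) (hβ : 0 < β) (N : ℕ) :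
    Summable fun φ : GN N => X0 N φ ^ 2 * wt α β φ := by
  set c : ℝ := (2 * N + 1 : ℝ) ^ (-α) with hc
  have hc0 : 0 < c := by positivity
  have h1 := (summable_wt hα (show 0 < β / 2 by linarith) N).mul_left (2 / (β * c))
  refine Summable.of_nonneg_of_le (fun φ => mul_nonneg (sq_nonneg _) (Real.exp_pos _).le)
    (fun φ => ?_) h1
  have h3 := coercive hα (re_supp φ)
  have h4 : re φ 0 ^ 2 ≤ ∑ x ∈ Finset.Icc (-(N : ℤ)) N, re φ x ^ 2 :=
    Finset.single_le_sum (f := fun x => re φ x ^ 2) (fun x _ => sq_nonneg _)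
      (Finset.mem_Icc.2 ⟨by omega, by omega⟩)
  have h5 : c * re φ 0 ^ 2 ≤ B α φ φ := by
    refine le_trans ?_ h3
    exact mul_le_mul_of_nonneg_left h4 hc0.le
  have h6 : wt α β φ = wt α (β / 2) φ * wt α (β / 2) φ := by
    unfold wt
    rw [← Real.exp_add]
    congr 1
    ring
  have h7 : 0 < wt α (β / 2) φ := Real.exp_pos _
  -- `t e^{-t} ≤ 1`
  have h8 : (β / 2 * B α φ φ) * wt α (β / 2) φ ≤ 1 := by
    have h9 := Real.add_one_le_exp (β / 2 * B α φ φ)
    have h10 : wt α (β / 2) φ * Real.exp (β / 2 * B α φ φ) = 1 := by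
      unfold wt
      rw [← Real.exp_add]
      simp
    nlinarith
  show re φ 0 ^ 2 * wt α β φ ≤ 2 / (β * c) * wt α (β / 2) φ
  rw [h6, ← mul_assoc]
  refine mul_le_mul_of_nonneg_right ?_ h7.le
  have h9 : re φ 0 ^ 2 ≤ 2 / (β * c) * (β / 2 * B α φ φ) := by
    have h10 : 2 / (β * c) * (β / 2 * B α φ φ) = B α φ φ / c := by
      field_simp
    rw [h10, le_div_iff₀ hc0]
    linarith
  calc re φ 0 ^ 2 * wt α (β / 2) φ ≤ 2 / (β * c) * (β / 2 * B α φ φ) * wt α (β / 2) φ :=
        mul_le_mul_of_nonneg_right h9 h7.le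
    _ = 2 / (β * c) * ((β / 2 * B α φ φ) * wt α (β / 2) φ) := by ring
    _ ≤ 2 / (β * c) * 1 := by gcongr
    _ = _ := by ring

/-- the pyramid as an element of the group -/
def profG {k l N : ℕ} (hl : 1 ≤ l) (h : 2 * k * l ≤ N + 2) (a : Fin k → Fin l) : GN N :=
  ⟨prof l a, fun x hx => by
    unfold prof
    refine Finset.sum_eq_zero fun i _ => ?_
    rw [if_neg]
    have h1 : (pos l a i : ℤ) ≤ N := by exact_mod_cast pos_le hl h a i
    omega⟩

/-- **Lower bound with free parameters.** -/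
theorem lower {α β : ℝ} (hα : 2 < α) (hα3 : α < 3) (hβ : 0 < β) {k l N : ℕ} (hk : 1 ≤ k)
    (hl : 1 ≤ l) (h : 2 * k * l ≤ N + 2) :
    (k : ℝ) ^ 2 * (∑' φ : GN N, wt α β φ) ≤
      Real.exp (D α β * ((k : ℝ) ^ 2 * ((k : ℝ) * l) ^ (-(α - 2)))) *
        ∑' φ : GN N, X0 N φ ^ 2 * wt α β φ := by
  have hα1 : 1 < α := by linarith
  refine hcr (wt α β) (fun φ => (Real.exp_pos _).le) (summable_wt hα1 hβ N) (fun φ => ?_) (X0 N)
    (summable_X0 hα1 hβ N) (fun h g => Real.exp (2 * β * B α g h - β * B α h h))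
    (fun h h' => Real.exp (2 * β * B α h h')) (fun g h => ?_) (fun g h h' => ?_)
    (Finset.univ : Finset (Fin k → Fin l)) (profG hl h) k (fun a _ => ?_) ?_ _ (Real.exp_pos _) ?_
  · unfold wt
    rw [B_neg_left, B_neg_right, neg_neg]
  · unfold wt
    rw [← Real.exp_add, sub_eq_add_neg g h, B_add_left hα1, B_add_right hα1, B_add_right hα1,
      B_neg_left, B_neg_left, B_neg_right, B_neg_right, B_symm h g]
    congr 1
    ring
  · unfold wt
    rw [← Real.exp_add, ← Real.exp_add, ← Real.exp_add, sub_eq_add_neg g (h + h'), B_add_left hα1,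
      B_add_right hα1, B_add_right hα1, B_neg_left, B_neg_left, B_neg_right, B_neg_right,
      B_add_left hα1, B_add_left hα1, B_add_right hα1, B_add_right hα1, B_add_right hα1,
      B_symm h g, B_symm h' g, B_symm h' h]
    congr 1
    ring
  · show ((prof l a 0 : ℤ) : ℝ) = k
    rw [prof_zero, Int.cast_natCast]
  · rw [Finset.card_univ, Fintype.card_fun, Fintype.card_fin, Fintype.card_fin]
    have : 0 < l ^ k := Nat.pow_pos hl
    exact_mod_cast this
  · rw [Finset.card_univ, Fintype.card_fun, Fintype.card_fin, Fintype.card_fin]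
    push_cast
    exact sum_overlap hα hα3 hβ hk hl

end Pool.Agent.K3h95.DG
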