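import Mathlib
import Pool.Agent.K3h95.DG.Chain

/-! # The variance of the height at the origin -/

set_option autoImplicit false

namespace Pool.Agent.K3h95.DG

open Finset

/-- the variance at the origin, in terms of the group -/
noncomputable def V (α β : ℝ) (N : ℕ) : ℝ :=
  (∑' φ : GN N, X0 N φ ^ 2 * wt α β φ) / ∑' φ : GN N, wt α β φ

lemma Z_pos {α β : ℝ} (hα : 1 < α) (hβ : 0 < β) (N : ℕ) : 0 < ∑' φ : GN N, wt α β φ :=
  (summable_wt hα hβ N).tsum_pos (fun _ => (Real.exp_pos _).le) 0 (Real.exp_pos _)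

theorem V_ge {α β : ℝ} (hα : 2 < α) (hα3 : α < 3) (hβ : 0 < β) {k l N : ℕ} (hk : 1 ≤ k)
    (hl : 1 ≤ l) (h : 2 * k * l ≤ N + 2) :
    (k : ℝ) ^ 2 * Real.exp (-(D α β * ((k : ℝ) ^ 2 * ((k : ℝ) * l) ^ (-(α - 2))))) ≤ V α β N := by
  have h1 := lower hα hα3 hβ hk hl h
  have h2 := Z_pos (show 1 < α by linarith) hβ N
  unfold V
  rw [le_div_iff₀ h2]
  set E := D α β * ((k : ℝ) ^ 2 * ((k : ℝ) * l) ^ (-(α - 2)))
  have h3 := mul_le_mul_of_nonneg_left h1 (Real.exp_pos (-E)).le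
  have h4 : Real.exp (-E) * (Real.exp E * ∑' φ : GN N, X0 N φ ^ 2 * wt α β φ) =
      ∑' φ : GN N, X0 N φ ^ 2 * wt α β φ := by
    rw [← mul_assoc, ← Real.exp_add, neg_add_cancel, Real.exp_zero, one_mul]
  rw [h4] at h3
  linarith

/-- **The variance is at least a constant times `N ^ (α - 2)`.** -/
theorem V_ge_rpow {α β : ℝ} (hα : 2 < α) (hα3 : α < 3) (hβ : 0 < β) :
    ∃ c : ℝ, 0 < c ∧ ∀ N : ℕ, 1 ≤ N → c * (N : ℝ) ^ (α - 2) ≤ V α β N := by
  have hD := D_pos hα hα3 hβ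
  have hγ : 0 < α - 2 := by linarith
  refine ⟨Real.exp (-(4 * D α β)) / 16, by positivity, fun N hN => ?_⟩
  have hN0 : (0 : ℝ) < N := by exact_mod_cast hN
  have hN1 : (1 : ℝ) ≤ N := by exact_mod_cast hN
  rcases lt_or_ge N 16 with h16 | h16
  · -- small `N`: one jump
    have h1 := V_ge hα hα3 hβ (k := 1) (l := 1) (N := N) le_rfl le_rfl (by omega)
    refine le_trans ?_ h1
    have h2 : (N : ℝ) ^ (α - 2) ≤ 16 := by
      have h3 : (N : ℝ) ^ (α - 2) ≤ (N : ℝ) ^ (1 : ℝ) :=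
        Real.rpow_le_rpow_of_exponent_le hN1 (by linarith)
      rw [Real.rpow_one] at h3
      have : (N : ℝ) ≤ 16 := by exact_mod_cast h16.le
      linarith
    have h3 : Real.exp (-(4 * D α β)) ≤ Real.exp (-D α β) := by
      rw [Real.exp_le_exp]
      linarith
    simp only [Nat.cast_one, one_pow, one_mul, mul_one, Real.one_rpow]
    calc Real.exp (-(4 * D α β)) / 16 * (N : ℝ) ^ (α - 2)
        ≤ Real.exp (-(4 * D α β)) / 16 * 16 := by gcongr
      _ = Real.exp (-(4 * D α β)) := by ring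
      _ ≤ _ := h3
  · -- large `N`
    have hN16 : (16 : ℝ) ≤ N := by exact_mod_cast h16
    set y : ℝ := (N : ℝ) ^ ((α - 2) / 2) with hy
    have hy1 : 1 ≤ y := Real.one_le_rpow hN1 (by linarith)
    have hysq : y ^ 2 = (N : ℝ) ^ (α - 2) := by
      rw [hy, ← Real.rpow_natCast, ← Real.rpow_mul hN0.le]
      congr 1
      push_cast
      ring
    have hyN : y ^ 2 ≤ N := by
      rw [hysq]
      have h3 : (N : ℝ) ^ (α - 2) ≤ (N : ℝ) ^ (1 : ℝ) :=
        Real.rpow_le_rpow_of_exponent_le hN1 (by linarith)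
      rwa [Real.rpow_one] at h3
    set k : ℕ := ⌊y⌋₊ with hk
    have hk1 : 1 ≤ k := Nat.le_floor (by exact_mod_cast hy1)
    have hky : (k : ℝ) ≤ y := Nat.floor_le (by linarith)
    have hky' : y < k + 1 := Nat.lt_floor_add_one y
    have hk0 : (1 : ℝ) ≤ k := by exact_mod_cast hk1
    have hyk : y ≤ 2 * k := by linarith
    -- `4 k ≤ N`
    have hkN : 4 * (k : ℝ) ≤ N := by
      have h1 : (k : ℝ) ^ 2 ≤ N := (pow_le_pow_left₀ (by positivity) hky 2).trans hyN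
      nlinarith [sq_nonneg ((k : ℝ) - 4)]
    set l : ℕ := N / (2 * k) with hl
    have h2k : 0 < 2 * k := by omega
    have hkN' : 4 * k ≤ N := by exact_mod_cast hkN
    have hl1 : 1 ≤ l := (Nat.one_le_div_iff h2k).2 (by omega)
    have hle : 2 * k * l ≤ N := Nat.mul_div_le N (2 * k)
    have hlt : N < 2 * k * l + 2 * k := by
      have := Nat.lt_mul_div_succ N h2k
      rw [hl]
      calc N < 2 * k * (N / (2 * k) + 1) := this
        _ = _ := by ring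
    have h1 := V_ge hα hα3 hβ (k := k) (l := l) (N := N) hk1 hl1 (by omega)
    refine le_trans ?_ h1
    have hkl : (N : ℝ) / 4 ≤ (k : ℝ) * l := by
      have h2 : (N : ℝ) < 2 * k * l + 2 * k := by exact_mod_cast hlt
      linarith
    -- the exponent is bounded
    have hexp : (k : ℝ) ^ 2 * ((k : ℝ) * l) ^ (-(α - 2)) ≤ 4 := by
      have h2 : ((k : ℝ) * l) ^ (-(α - 2)) ≤ ((N : ℝ) / 4) ^ (-(α - 2)) :=
        Real.rpow_le_rpow_of_nonpos (by positivity) hkl (by linarith)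
      have h3 : (k : ℝ) ^ 2 ≤ (N : ℝ) ^ (α - 2) := by
        rw [← hysq]
        exact pow_le_pow_left₀ (by positivity) hky 2
      have h4 : (N : ℝ) ^ (α - 2) * ((N : ℝ) / 4) ^ (-(α - 2)) = 4 ^ (α - 2) := by
        rw [Real.div_rpow hN0.le (by norm_num), Real.rpow_neg hN0.le, Real.rpow_neg (by norm_num)]
        have : (N : ℝ) ^ (α - 2) ≠ 0 := (Real.rpow_pos_of_pos hN0 _).ne'
        have : (4 : ℝ) ^ (α - 2) ≠ 0 := (Real.rpow_pos_of_pos (by norm_num) _).ne'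
        field_simp
      have h5 : (4 : ℝ) ^ (α - 2) ≤ (4 : ℝ) ^ (1 : ℝ) :=
        Real.rpow_le_rpow_of_exponent_le (by norm_num) (by linarith)
      rw [Real.rpow_one] at h5
      calc (k : ℝ) ^ 2 * ((k : ℝ) * l) ^ (-(α - 2)) ≤ (N : ℝ) ^ (α - 2) * ((N : ℝ) / 4) ^ (-(α - 2)) := by
            gcongr
        _ = 4 ^ (α - 2) := h4
        _ ≤ 4 := h5
    have h2 : Real.exp (-(4 * D α β)) ≤
        Real.exp (-(D α β * ((k : ℝ) ^ 2 * ((k : ℝ) * l) ^ (-(α - 2))))) := by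
      rw [Real.exp_le_exp]
      nlinarith
    have h3 : (N : ℝ) ^ (α - 2) ≤ 4 * (k : ℝ) ^ 2 := by
      rw [← hysq]
      nlinarith
    calc Real.exp (-(4 * D α β)) / 16 * (N : ℝ) ^ (α - 2)
        ≤ Real.exp (-(4 * D α β)) / 16 * (4 * (k : ℝ) ^ 2) := by gcongr
      _ ≤ (k : ℝ) ^ 2 * Real.exp (-(4 * D α β)) := by
          have : 0 < (k : ℝ) ^ 2 * Real.exp (-(4 * D α β)) := by positivity
          linarith
      _ ≤ _ := by gcongr

/-- the exponent in the frozen form -/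
lemma wt_eq (α β : ℝ) {N : ℕ} (φ : GN N) :
    wt α β φ = Real.exp (-β * ∑' p : ℤ × ℤ,
      (if p.1 = p.2 then (0 : ℝ)
       else ((|p.1 - p.2| : ℤ) : ℝ) ^ (-α) * ((φ.1 p.1 : ℝ) - (φ.1 p.2 : ℝ)) ^ 2)) := by
  unfold wt B Bf
  congr 2
  refine tsum_congr fun p => ?_
  unfold J re
  split_ifs
  · rw [zero_mul]
  · rw [sq]

lemma V_eq (α β : ℝ) (N : ℕ) : V α β N =
    (∑' φ : {φ : ℤ → ℤ // ∀ x : ℤ, (N : ℤ) < |x| → φ x = 0},
        ((φ.1 0 : ℝ)) ^ 2 *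
          Real.exp (-β * ∑' p : ℤ × ℤ,
            (if p.1 = p.2 then (0 : ℝ)
             else ((|p.1 - p.2| : ℤ) : ℝ) ^ (-α) *
               ((φ.1 p.1 : ℝ) - (φ.1 p.2 : ℝ)) ^ 2))) /
    (∑' φ : {φ : ℤ → ℤ // ∀ x : ℤ, (N : ℤ) < |x| → φ x = 0},
        Real.exp (-β * ∑' p : ℤ × ℤ,
          (if p.1 = p.2 then (0 : ℝ)
           else ((|p.1 - p.2| : ℤ) : ℝ) ^ (-α) *
             ((φ.1 p.1 : ℝ) - (φ.1 p.2 : ℝ)) ^ 2))) := by
  unfold V
  congr 1
  · exact tsum_congr fun φ : GN N => by rw [wt_eq]; rfl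
  · exact tsum_congr fun φ : GN N => wt_eq α β φ

end Pool.Agent.K3h95.DG
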